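import Pool.Agent.Helper57.QZ.Stmts

/-! Row VM4 of project QZ (MP_818aa8_nt): bounds for the second order term. -/

set_option autoImplicit false

namespace Pool.Agent.Helper51.QZ

open MeasureTheory Set Filter Topology Pool.Agent.Helper57.QZ

theorem st_VM4 (h1 : ST_VM1) (h2 : ST_VM2) (h3 : ST_VM3) : ST_VM4 := by
  have cell : Continuous ell := continuous_iff_continuousAt.mpr fun x => (h1 x).1.continuousAt
  have crr : Continuous rr := continuous_iff_continuousAt.mpr fun x => (h1 x).2.continuousAt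
  have hmono : Monotone rr := by
    apply monotone_of_deriv_nonneg
    · exact fun x => (h1 x).2.differentiableAt
    · intro x
      rw [(h1 x).2.deriv]
      exact (h3.1 x).2.1
  constructor
  · intro κ x hκ0 hκ1 hx
    rcases eq_or_lt_of_le hκ1 with rfl | hκ
    · simp [Bf]
    have hab : κ * x < x := by nlinarith
    have ha : 0 < κ * x := by positivity
    obtain ⟨u, hu, he⟩ := exists_hasDerivAt_eq_slope ell rr hab cell.continuousOn
      fun t _ => (h1 t).1
    have hd : ∀ t ∈ Icc (κ * x) x, HasDerivAt (fun v => rr v + 5 * v⁻¹) (vv t + 5 * (-(t ^ 2)⁻¹)) t := by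
      intro t ht
      have ht0 : t ≠ 0 := by
        have := ht.1
        intro h0
        linarith
      exact (h1 t).2.add ((hasDerivAt_inv ht0).const_mul 5)
    obtain ⟨v, hv, hev⟩ := exists_hasDerivAt_eq_slope (fun v => rr v + 5 * v⁻¹)
      (fun t => vv t + 5 * (-(t ^ 2)⁻¹)) hab
      (fun t ht => (hd t ht).continuousAt.continuousWithinAt)
      fun t ht => hd t ⟨ht.1.le, ht.2.le⟩
    have hpos : 0 < x - κ * x := by linarith
    have hv0 : 0 < v := lt_trans ha hv.1
    have hle : vv v + 5 * (-(v ^ 2)⁻¹) ≤ 0 := by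
      have := (h2 v hv0).2
      rw [div_eq_mul_inv] at this
      linarith
    have e1 : rr u * (x - κ * x) = ell x - ell (κ * x) := by
      rw [he]
      field_simp
    have e2 : rr x + 5 * x⁻¹ - (rr (κ * x) + 5 * (κ * x)⁻¹) ≤ 0 := by
      have e3 : (vv v + 5 * (-(v ^ 2)⁻¹)) * (x - κ * x) =
          rr x + 5 * x⁻¹ - (rr (κ * x) + 5 * (κ * x)⁻¹) := by
        rw [hev]
        field_simp
      rw [← e3]
      exact mul_nonpos_of_nonpos_of_nonneg hle hpos.le
    have e4 : rr (κ * x) ≤ rr u := hmono hu.1.le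
    have e5 : Bf κ x ≤ (1 - κ) * x * (rr x - rr (κ * x)) := by
      rw [Bf]
      nlinarith [mul_le_mul_of_nonneg_right e4 hpos.le]
    have e6 : rr x - rr (κ * x) ≤ 5 * (κ * x)⁻¹ - 5 * x⁻¹ := by linarith
    have e7 : 0 ≤ (1 - κ) * x := by nlinarith
    have e8 : (1 - κ) * x * (5 * (κ * x)⁻¹ - 5 * x⁻¹) = 5 * (1 - κ) ^ 2 / κ := by
      field_simp
    calc Bf κ x ≤ (1 - κ) * x * (rr x - rr (κ * x)) := e5
      _ ≤ (1 - κ) * x * (5 * (κ * x)⁻¹ - 5 * x⁻¹) := mul_le_mul_of_nonneg_left e6 e7
      _ = _ := e8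
  · intro κ x hκ1 hx
    rcases eq_or_lt_of_le hκ1 with rfl | hκ
    · simp [Bf]
    rcases eq_or_lt_of_le hx with rfl | hx0
    · simp [Bf]
    have hab : x < κ * x := by nlinarith
    obtain ⟨u, hu, he⟩ := exists_hasDerivAt_eq_slope ell rr hab cell.continuousOn
      fun t _ => (h1 t).1
    obtain ⟨v, hv, hev⟩ := exists_hasDerivAt_eq_slope rr vv hu.1 crr.continuousOn
      fun t _ => (h1 t).2
    have hpos : 0 < κ * x - x := by linarith
    have e1 : rr u * (κ * x - x) = ell (κ * x) - ell x := by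
      rw [he]
      field_simp
    have hux : 0 < u - x := by linarith [hu.1]
    have e2 : vv v * (u - x) = rr u - rr x := by
      rw [hev]
      field_simp
    have e3 : vv v ≤ 1 := (h3.1 v).2.2.1
    have e4 : rr u - rr x ≤ κ * x - x := by
      nlinarith [hu.2]
    have e5 : Bf κ x = (κ * x - x) * (rr u - rr x) := by
      rw [Bf]
      linarith
    rw [e5]
    nlinarith [mul_le_mul_of_nonneg_left e4 hpos.le]

end Pool.Agent.Helper51.QZ
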